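import Pool.Agent.Lib.MP_ca0fc2_an.SP.S31

/-! Q1 is the local solvability over all bounded holomorphic functions. -/

set_option autoImplicit false
set_option linter.unusedSectionVars false

open Metric Set MeasureTheory Filter Topology
open scoped InnerProductSpace ENNReal ContDiff

namespace Pool.Agent.MPca0fc2.LD

open Pool.Agent.Lib.MP_ca0fc2_an
open Pool.Agent.MPca0fc2.SP

variable {n : ℕ}

/-- Local solutions on cells give a lower bound. -/
theorem lower_of_cells {D : Set (EuclideanSpace ℂ (Fin n))} {N m : ℕ}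
    {f : Fin N → EuclideanSpace ℂ (Fin n) → ℂ}
    {u : Fin m → EuclideanSpace ℂ (Fin n) → ℂ} (hu : ∀ i, IsHinf D (u i)) {ε : ℝ}
    (hε : 0 < ε) (H : ∀ c : Fin m → ℂ, ∃ C, SolvableOn f {z | z ∈ D ∧ ∀ i, ‖u i z - c i‖ < ε} C) :
    ∃ δ > 0, ∀ z ∈ D, δ ≤ ∑ j, ‖f j z‖ ^ 2 := by
  choose hud B hB using hu
  obtain ⟨M, hM⟩ : ∃ M : ℝ, M = ∑ i, |B i| := ⟨_, rfl⟩
  have hBM : ∀ i, |B i| ≤ M := fun i => by
    rw [hM]
    exact Finset.single_le_sum (f := fun i => |B i|) (fun _ _ => abs_nonneg _)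
      (Finset.mem_univ i)
  have hM0 : 0 ≤ M := by rw [hM]; exact Finset.sum_nonneg fun i _ => abs_nonneg _
  obtain ⟨t, -, htf, ht⟩ := finite_cover_balls_of_compact
    (isCompact_closedBall (0 : Fin m → ℂ) M) hε
  choose C h h1 h2 h3 using H
  obtain ⟨d, hd, hd'⟩ := exists_lower htf.toFinset (fun c => ((C c ^ 2 + 1) * (N + 1))⁻¹)
    fun c _ => by positivity
  refine ⟨d, hd, fun z hz => ?_⟩
  have hmem : (fun i => u i z) ∈ closedBall (0 : Fin m → ℂ) M := by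
    rw [mem_closedBall_zero_iff, pi_norm_le_iff_of_nonneg hM0]
    exact fun i => (hB i z hz).trans ((le_abs_self _).trans (hBM i))
  obtain ⟨c, hct, hc⟩ := mem_iUnion₂.1 (ht hmem)
  have hcell : z ∈ {z | z ∈ D ∧ ∀ i, ‖u i z - c i‖ < ε} := by
    refine ⟨hz, fun i => ?_⟩
    rw [mem_ball, dist_eq_norm] at hc
    exact (norm_le_pi_norm ((fun i => u i z) - c) i).trans_lt hc
  exact (hd' c (htf.mem_toFinset.2 hct)).trans (low (R := fun j => h c j z) (h3 c z hcell)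
    fun j => h2 c j z hcell)

/-- On the small cells of the data themselves one function is invertible. -/
theorem self_cells {D : Set (EuclideanSpace ℂ (Fin n))} {N : ℕ}
    {f : Fin N → EuclideanSpace ℂ (Fin n) → ℂ} (hf : ∀ j, IsHinf D (f j)) {δ : ℝ} (hδ : 0 < δ)
    (hfδ : ∀ z ∈ D, δ ≤ ∑ j, ‖f j z‖ ^ 2) :
    ∃ ε > 0, ∀ c : Fin N → ℂ, ∃ C, SolvableOn f {z | z ∈ D ∧ ∀ i, ‖f i z - c i‖ < ε} C := by
  classical
  obtain ⟨t, ht⟩ : ∃ t : ℝ, t = √(δ / (N + 1)) := ⟨_, rfl⟩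
  have ht0 : 0 < t := by rw [ht]; exact Real.sqrt_pos.2 (by positivity)
  have ht2 : t ^ 2 = δ / (N + 1) := by rw [ht]; exact Real.sq_sqrt (by positivity)
  refine ⟨t / 4, by positivity, fun c => ?_⟩
  by_cases hne : ∃ w, w ∈ D ∧ ∀ i, ‖f i w - c i‖ < t / 4
  · obtain ⟨w, hw, hwc⟩ := hne
    obtain ⟨i, hi⟩ : ∃ i, t ≤ ‖f i w‖ := by
      by_contra hcon
      push Not at hcon
      have h1 : ∑ j, ‖f j w‖ ^ 2 ≤ ∑ _j : Fin N, t ^ 2 :=
        Finset.sum_le_sum fun j _ => pow_le_pow_left₀ (norm_nonneg _) (hcon j).le 2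
      rw [Finset.sum_const, Finset.card_univ, Fintype.card_fin, nsmul_eq_mul, ht2] at h1
      have h2 : (N : ℝ) * (δ / (N + 1)) < δ := by
        rw [mul_div_assoc', div_lt_iff₀ (by positivity)]
        nlinarith
      linarith [hfδ w hw]
    refine inv_sol i ((hf i).1.mono fun z hz => hz.1) (c := t / 2) (by positivity) fun z hz => ?_
    have h1 := hz.2 i
    have h2 := hwc i
    have h3 : ‖f i w‖ ≤ ‖f i z‖ + ‖f i w - f i z‖ := by
      calc ‖f i w‖ = ‖f i z + (f i w - f i z)‖ := by congr 1; ring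
        _ ≤ _ := norm_add_le _ _
    have h4 : ‖f i w - f i z‖ ≤ ‖f i w - c i‖ + ‖f i z - c i‖ := by
      calc ‖f i w - f i z‖ = ‖(f i w - c i) - (f i z - c i)‖ := by congr 1; ring
        _ ≤ _ := norm_sub_le _ _
    linarith
  · exact ⟨0, fun _ _ => 0, fun j => differentiableOn_const _,
      fun j z hz => absurd ⟨z, hz⟩ hne, fun z hz => absurd ⟨z, hz⟩ hne⟩

end Pool.Agent.MPca0fc2.LD
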