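import Pool.Agent.Lib.MP_ca0fc2_an.GW.I6

/-! Functions which are Hölder continuous off the zero set of a holomorphic function with positive real
part are in the Carleson class. -/

set_option autoImplicit false
set_option linter.unusedSectionVars false

open Metric Set MeasureTheory Filter Topology
open scoped InnerProductSpace ENNReal ContDiff

namespace Pool.Agent.MPca0fc2.LD

open Pool.Agent.Lib.MP_ca0fc2_an
open Pool.Agent.MPca0fc2.FD (Ec)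
open Pool.Agent.MPca0fc2.GW

variable {n : ℕ}

/-- Hopf's lemma for functions with positive real part -/
theorem hopf_re (hn : 1 ≤ n) {D U : Set (Ec n)} {ρ : Ec n → ℝ} {h : Ec n → Ec n → Fin n → ℂ}
    {c : ℝ} (hs : SupportData D U ρ h c) {p : Ec n} {r r' : ℝ} (hr : r' < r) {F : Ec n → ℂ}
    (hF : DifferentiableOn ℂ F (ball p r)) (hF1 : ∀ z ∈ D ∩ ball p r, 0 < (F z).re) :
    ∃ K : ℝ, 1 ≤ K ∧ ∀ z ∈ D ∩ ball p r', infDist z Dᶜ ≤ K * (F z).re := by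
  have hQ : DifferentiableOn ℂ (fun z : Ec n =>
      (EuclideanSpace.single 0 (Complex.exp (-F z)) : EuclideanSpace ℂ (Fin 1))) (ball p r) := by
    have e1 : (fun z : Ec n => (EuclideanSpace.single 0 (Complex.exp (-F z)) :
        EuclideanSpace ℂ (Fin 1))) = fun z => Complex.exp (-F z) •
          (EuclideanSpace.single 0 (1 : ℂ) : EuclideanSpace ℂ (Fin 1)) := by
      funext z
      ext i
      fin_cases i
      simp
    rw [e1]
    exact (Complex.differentiable_exp.comp_differentiableOn hF.neg).smul_const _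
  have hnorm : ∀ z, ‖(EuclideanSpace.single 0 (Complex.exp (-F z)) : EuclideanSpace ℂ (Fin 1))‖ =
      Real.exp (-(F z).re) := by
    intro z
    rw [PiLp.norm_single, Complex.norm_exp, Complex.neg_re]
  obtain ⟨K, hK, h1⟩ := hopf_loc hn hs hr hQ fun z hz => by
    rw [hnorm, Real.exp_lt_one_iff]
    linarith [hF1 z hz]
  refine ⟨K, hK, fun z hz => (h1 z hz).trans ?_⟩
  rw [hnorm]
  refine mul_le_mul_of_nonneg_left ?_ (by linarith)
  have := Real.add_one_le_exp (-(F z).re)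
  linarith

/-- the sum over the scales -/
theorem scale_sum {a : ℝ} (ha : 0 < a) (m : ℕ) :
    ∑ i ∈ Finset.range m, (1 / 2 : ℝ) ^ i / (a ^ 2 + ((1 / 2 : ℝ) ^ i) ^ 2) ≤ 4 / a := by
  obtain ⟨G, hG⟩ : ∃ G : ℕ → ℝ, G = fun i => (1 / 2 : ℝ) ^ i / (a + (1 / 2 : ℝ) ^ i) := ⟨_, rfl⟩
  have h1 : ∀ i, (1 / 2 : ℝ) ^ i / (a ^ 2 + ((1 / 2 : ℝ) ^ i) ^ 2) ≤
      4 / a * (G i - G (i + 1)) := by
    intro i
    rw [hG]
    simp only [pow_succ]
    obtain ⟨x, hx⟩ : ∃ x : ℝ, x = (1 / 2 : ℝ) ^ i := ⟨_, rfl⟩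
    have hx0 : 0 < x := by rw [hx]; positivity
    rw [← hx]
    have e1 : x / (a + x) - x * (1 / 2) / (a + x * (1 / 2)) =
        x * a / ((a + x) * (2 * a + x)) := by
      field_simp
      ring
    have e2 : 4 / a * (x * a / ((a + x) * (2 * a + x))) = 4 * x / ((a + x) * (2 * a + x)) := by
      field_simp
    rw [e1, e2, div_le_div_iff₀ (by positivity) (by positivity)]
    nlinarith [mul_pos ha hx0, sq_nonneg (a - x), mul_pos hx0 (mul_pos ha hx0),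
      mul_pos hx0 (mul_pos ha ha), mul_pos hx0 (mul_pos hx0 hx0),
      mul_nonneg hx0.le (sq_nonneg (a - x))]
  have hG0 : G 0 ≤ 1 := by
    rw [hG]
    simp only [pow_zero]
    rw [div_le_one (by positivity)]
    linarith
  have hGm : 0 ≤ G m := by rw [hG]; positivity
  calc ∑ i ∈ Finset.range m, (1 / 2 : ℝ) ^ i / (a ^ 2 + ((1 / 2 : ℝ) ^ i) ^ 2)
      ≤ ∑ i ∈ Finset.range m, 4 / a * (G i - G (i + 1)) := Finset.sum_le_sum fun i _ => h1 i
    _ = 4 / a * (G 0 - G m) := by rw [← Finset.mul_sum, Finset.sum_range_sub']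
    _ ≤ 4 / a * 1 := by
        refine mul_le_mul_of_nonneg_left (by linarith) (by positivity)
    _ = 4 / a := mul_one _

/-- each positive number at most one is between two scales -/
theorem exists_scale {a : ℝ} (ha : 0 < a) (ha1 : a ≤ 1) :
    ∃ i : ℕ, (1 / 2 : ℝ) ^ i ≤ a ∧ a < 2 * (1 / 2 : ℝ) ^ i := by
  classical
  have hex : ∃ i : ℕ, (1 / 2 : ℝ) ^ i ≤ a := by
    obtain ⟨i, hi⟩ := exists_pow_lt_of_lt_one ha (show (1 / 2 : ℝ) < 1 by norm_num)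
    exact ⟨i, hi.le⟩
  refine ⟨Nat.find hex, Nat.find_spec hex, ?_⟩
  rcases Nat.eq_zero_or_pos (Nat.find hex) with h0 | h0
  · rw [h0]
    simp only [pow_zero]
    linarith
  · have h1 := Nat.find_min hex (Nat.sub_lt h0 one_pos)
    push Not at h1
    obtain ⟨k, hk⟩ : ∃ k, Nat.find hex = k + 1 := ⟨Nat.find hex - 1, by omega⟩
    rw [hk] at h1 ⊢
    rw [Nat.add_sub_cancel] at h1
    rw [pow_succ]
    linarith

theorem holder_carl (hn : 1 ≤ n) {D U : Set (Ec n)} {ρ : Ec n → ℝ}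
    {h : Ec n → Ec n → Fin n → ℂ} {c : ℝ} (hs : SupportData D U ρ h c) {p : Ec n} {r r' : ℝ}
    (hr : r' < r) {F : Ec n → ℂ} (hF : DifferentiableOn ℂ F (ball p r))
    (hF1 : ∀ z ∈ D ∩ ball p r, 0 < (F z).re) {v : Ec n → ℂ} (hv : IsHinf (D ∩ ball p r) v)
    {q s L : ℝ} (hq : 0 < q) (hs0 : 0 < s)
    (hvF : ∀ φ : ℂ → Ec n, DifferentiableOn ℂ φ (ball 0 1) →
      (∀ x ∈ ball (0 : ℂ) 1, φ x ∈ D ∩ ball p r) →
      ‖deriv (fun x => v (φ x)) 0‖ ^ q ≤ L * (infDist (φ 0) Dᶜ / ‖F (φ 0)‖) ^ s) :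
    v ∈ CarlOn D (ball p r') := by
  obtain ⟨K₀, hK₀, hhopf⟩ := hopf_re hn hs hr hF hF1
  have hsub : D ∩ ball p r' ⊆ D ∩ ball p r := inter_subset_inter_right _ (ball_subset_ball hr.le)
  -- bound for `F`
  obtain ⟨M, hM1, hM⟩ : ∃ M : ℝ, 1 ≤ M ∧ ∀ z ∈ ball p r', ‖F z‖ ≤ M := by
    obtain ⟨M, hM⟩ := (isCompact_closedBall p r').exists_bound_of_continuousOn
      (hF.continuousOn.mono (closedBall_subset_ball hr))
    exact ⟨max M 1, le_max_right _ _, fun z hz => (hM z (ball_subset_closedBall hz)).trans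
      (le_max_left _ _)⟩
  have hM0 : 0 < M := by linarith
  -- the exponent
  obtain ⟨κ, hκ⟩ : ∃ κ : ℝ, κ = max 1 (q / (4 * s)) := ⟨_, rfl⟩
  have hκ1 : 1 ≤ κ := by rw [hκ]; exact le_max_left _ _
  have hκs : 1 / 4 ≤ s * (κ / q) := by
    have h1 : q / (4 * s) ≤ κ := by rw [hκ]; exact le_max_right _ _
    rw [div_le_iff₀ (by positivity)] at h1
    rw [mul_div_assoc', div_le_div_iff₀ (by norm_num) hq]
    linarith
  obtain ⟨L', hL'⟩ : ∃ L' : ℝ, L' = |L| ^ (κ / q) * K₀ ^ (s * (κ / q) - 1 / 4) := ⟨_, rfl⟩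
  have hL'0 : 0 ≤ L' := by rw [hL']; positivity
  obtain ⟨w, hw⟩ : ∃ w : ℝ, w = L' * (64 * M ^ 3) := ⟨_, rfl⟩
  have hw0 : 0 ≤ w := by rw [hw]; positivity
  have hFa : ∀ z ∈ D ∩ ball p r', 0 < ‖F z‖ := fun z hz =>
    (hF1 z (hsub hz)).trans_le (Complex.re_le_norm _)
  -- the size of `V`
  have hV : ∀ (i : ℕ), ∀ z ∈ D ∩ ball p r',
      ‖F z‖ ^ 2 + ((1 / 2 : ℝ) ^ i) ^ 2 ≤ ‖F z + ((1 / 2 : ℝ) ^ i : ℝ)‖ ^ 2 := by
    intro i z hz
    have h1 := hF1 z (hsub hz)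
    have h2 : 0 < (1 / 2 : ℝ) ^ i := by positivity
    rw [← Complex.normSq_eq_norm_sq, ← Complex.normSq_eq_norm_sq, Complex.normSq_apply,
      Complex.normSq_apply, Complex.add_re, Complex.add_im, Complex.ofReal_re, Complex.ofReal_im]
    nlinarith [mul_pos h1 h2]
  have hd0 : ∀ z, 0 ≤ infDist z Dᶜ := fun z => infDist_nonneg
  refine ⟨⟨hv.1.mono hsub, hv.2.choose, fun z hz => hv.2.choose_spec z (hsub hz)⟩,
    max (M + 1) (max (1 + K₀) (w * (4 * K₀))), κ, fun i z => F z + ((1 / 2 : ℝ) ^ i : ℝ),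
    fun i => (1 / 2 : ℝ) ^ i, fun _ => w, hκ1, ⟨fun i => ⟨by positivity, hw0⟩, fun i => ?_,
      fun i z hz => ?_, fun i z hz => ?_, fun z hz m => ?_⟩, fun φ hφ hφD => ?_⟩
  · exact (hF.mono (ball_subset_ball hr.le)).add_const _
  · refine le_trans ?_ (le_max_left _ _)
    have h2 : (1 / 2 : ℝ) ^ i ≤ 1 := pow_le_one₀ (by norm_num) (by norm_num)
    have h3 : ‖(((1 / 2 : ℝ) ^ i : ℝ) : ℂ)‖ = (1 / 2 : ℝ) ^ i := by
      rw [Complex.norm_real, Real.norm_of_nonneg (by positivity)]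
    calc ‖F z + (((1 / 2 : ℝ) ^ i : ℝ) : ℂ)‖ ≤ ‖F z‖ + ‖(((1 / 2 : ℝ) ^ i : ℝ) : ℂ)‖ :=
          norm_add_le _ _
      _ ≤ M + 1 := by rw [h3]; linarith [hM z hz]
  · have h1 := hhopf z hz
    have h2 := hF1 z (hsub hz)
    have h3 : 0 < (1 / 2 : ℝ) ^ i := by positivity
    rw [Complex.add_re, Complex.ofReal_re]
    have h4 : (1 : ℝ) + K₀ ≤ max (M + 1) (max (1 + K₀) (w * (4 * K₀))) :=
      (le_max_left _ _).trans (le_max_right _ _)
    calc (1 / 2 : ℝ) ^ i + infDist z Dᶜ ≤ (1 + K₀) * ((F z).re + (1 / 2 : ℝ) ^ i) := by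
          nlinarith
      _ ≤ _ := mul_le_mul_of_nonneg_right h4 (by positivity)
  · refine le_trans ?_ ((le_max_right _ _).trans (le_max_right _ _))
    obtain ⟨a, ha⟩ : ∃ a, a = ‖F z‖ := ⟨_, rfl⟩
    have ha0 : 0 < a := by rw [ha]; exact hFa z hz
    obtain ⟨d, hd⟩ : ∃ d, d = infDist z Dᶜ := ⟨_, rfl⟩
    have hdd : 0 ≤ d := by rw [hd]; exact hd0 z
    have hda : d ≤ K₀ * a := by
      rw [hd, ha]
      exact (hhopf z hz).trans (mul_le_mul_of_nonneg_left (Complex.re_le_norm _) (by linarith))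
    rw [← hd]
    calc ∑ i ∈ Finset.range m, w * (1 / 2 : ℝ) ^ i * d / ‖F z + ((1 / 2 : ℝ) ^ i : ℝ)‖ ^ 2
        ≤ ∑ i ∈ Finset.range m,
            w * d * ((1 / 2 : ℝ) ^ i / (a ^ 2 + ((1 / 2 : ℝ) ^ i) ^ 2)) := by
          refine Finset.sum_le_sum fun i _ => ?_
          have h1 := hV i z hz
          rw [← ha] at h1
          have h2 : 0 < a ^ 2 + ((1 / 2 : ℝ) ^ i) ^ 2 := by positivity
          rw [mul_div_assoc', div_le_div_iff₀ (h2.trans_le h1) h2]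
          have h3 : 0 ≤ w * (1 / 2 : ℝ) ^ i * d := by positivity
          calc w * (1 / 2 : ℝ) ^ i * d * (a ^ 2 + ((1 / 2 : ℝ) ^ i) ^ 2)
              ≤ w * (1 / 2 : ℝ) ^ i * d * ‖F z + ((1 / 2 : ℝ) ^ i : ℝ)‖ ^ 2 :=
                mul_le_mul_of_nonneg_left h1 h3
            _ = _ := by ring
      _ = w * d * ∑ i ∈ Finset.range m,
            (1 / 2 : ℝ) ^ i / (a ^ 2 + ((1 / 2 : ℝ) ^ i) ^ 2) := by rw [Finset.mul_sum]
      _ ≤ w * d * (4 / a) := mul_le_mul_of_nonneg_left (scale_sum ha0 m) (by positivity)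
      _ = w * (4 * (d / a)) := by ring
      _ ≤ w * (4 * K₀) := by
          refine mul_le_mul_of_nonneg_left ?_ hw0
          have : d / a ≤ K₀ := by rwa [div_le_iff₀ ha0]
          linarith
  · have h0 := hφD 0 (mem_ball_self one_pos)
    obtain ⟨a, ha⟩ : ∃ a, a = ‖F (φ 0)‖ := ⟨_, rfl⟩
    have ha0 : 0 < a := by rw [ha]; exact hFa _ h0
    have haM : a ≤ M := by rw [ha]; exact hM _ h0.2
    obtain ⟨d, hd⟩ : ∃ d, d = infDist (φ 0) Dᶜ := ⟨_, rfl⟩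
    have hdd : 0 ≤ d := by rw [hd]; exact hd0 _
    have hda : d ≤ K₀ * a := by
      rw [hd, ha]
      exact (hhopf _ h0).trans (mul_le_mul_of_nonneg_left (Complex.re_le_norm _) (by linarith))
    have ht : d / a ≤ K₀ := by rwa [div_le_iff₀ ha0]
    have ht0 : 0 ≤ d / a := by positivity
    have h1 := hvF φ hφ fun x hx => hsub (hφD x hx)
    rw [← ha, ← hd] at h1
    rw [← hd]
    -- the power
    have h2 : ‖deriv (fun x => v (φ x)) 0‖ ^ κ ≤ L' * (d / a) ^ (1 / 4 : ℝ) := by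
      have e1 : ‖deriv (fun x => v (φ x)) 0‖ ^ κ =
          (‖deriv (fun x => v (φ x)) 0‖ ^ q) ^ (κ / q) := by
        rw [← Real.rpow_mul (norm_nonneg _)]
        congr 1
        field_simp
      have e2 : ‖deriv (fun x => v (φ x)) 0‖ ^ q ≤ |L| * (d / a) ^ s :=
        h1.trans (mul_le_mul_of_nonneg_right (le_abs_self L) (by positivity))
      have hκq : 0 ≤ κ / q := by positivity
      rw [e1]
      calc (‖deriv (fun x => v (φ x)) 0‖ ^ q) ^ (κ / q) ≤ (|L| * (d / a) ^ s) ^ (κ / q) :=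
            Real.rpow_le_rpow (by positivity) e2 hκq
        _ = |L| ^ (κ / q) * (d / a) ^ (s * (κ / q)) := by
            rw [Real.mul_rpow (abs_nonneg _) (by positivity), ← Real.rpow_mul ht0]
        _ ≤ |L| ^ (κ / q) * (K₀ ^ (s * (κ / q) - 1 / 4) * (d / a) ^ (1 / 4 : ℝ)) := by
            refine mul_le_mul_of_nonneg_left ?_ (by positivity)
            have e3 : (d / a) ^ (s * (κ / q)) =
                (d / a) ^ (s * (κ / q) - 1 / 4) * (d / a) ^ (1 / 4 : ℝ) := by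
              rw [← Real.rpow_add_of_nonneg ht0 (by linarith) (by norm_num)]
              congr 1
              ring
            rw [e3]
            exact mul_le_mul_of_nonneg_right (Real.rpow_le_rpow ht0 ht (by linarith))
              (by positivity)
        _ = L' * (d / a) ^ (1 / 4 : ℝ) := by rw [hL']; ring
    refine h2.trans ?_
    -- the term of the scale of `a`
    obtain ⟨b, hb⟩ : ∃ b, b = a / M := ⟨_, rfl⟩
    have hb0 : 0 < b := by rw [hb]; positivity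
    have hb1 : b ≤ 1 := by rw [hb, div_le_one hM0]; exact haM
    have hba : b ≤ a := by
      rw [hb, div_le_iff₀ hM0]
      nlinarith
    have hab : a = M * b := by rw [hb]; field_simp
    obtain ⟨i, hi1, hi2⟩ := exists_scale hb0 hb1
    have hnn : ∀ j : ℕ, 0 ≤ w * ((1 / 2 : ℝ) ^ j) ^ 2 *
        (d ^ (1 / 4 : ℝ) / ‖F (φ 0) + ((1 / 2 : ℝ) ^ j : ℝ)‖ ^ (9 / 4 : ℝ)) := fun j => by
      positivity
    have hVa : ∀ j : ℕ, a ≤ ‖F (φ 0) + ((1 / 2 : ℝ) ^ j : ℝ)‖ := by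
      intro j
      have e1 := hV j _ h0
      rw [← ha] at e1
      have e2 : a ^ 2 ≤ ‖F (φ 0) + ((1 / 2 : ℝ) ^ j : ℝ)‖ ^ 2 := by
        nlinarith [sq_nonneg ((1 / 2 : ℝ) ^ j)]
      exact le_of_sq_le_sq e2 (norm_nonneg _)
    have hsum : Summable fun j : ℕ => w * ((1 / 2 : ℝ) ^ j) ^ 2 *
        (d ^ (1 / 4 : ℝ) / ‖F (φ 0) + ((1 / 2 : ℝ) ^ j : ℝ)‖ ^ (9 / 4 : ℝ)) := by
      refine Summable.of_nonneg_of_le hnn (fun j => ?_)
        ((summable_geometric_of_lt_one (by norm_num) (show (1 / 4 : ℝ) < 1 by norm_num)).mul_left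
          (w * (d ^ (1 / 4 : ℝ) / a ^ (9 / 4 : ℝ))))
      have e1 : ((1 / 2 : ℝ) ^ j) ^ 2 = (1 / 4 : ℝ) ^ j := by
        rw [← pow_mul, mul_comm, pow_mul]
        norm_num
      rw [e1]
      have e2 : d ^ (1 / 4 : ℝ) / ‖F (φ 0) + ((1 / 2 : ℝ) ^ j : ℝ)‖ ^ (9 / 4 : ℝ) ≤
          d ^ (1 / 4 : ℝ) / a ^ (9 / 4 : ℝ) := by
        refine div_le_div_of_nonneg_left (by positivity) (by positivity) ?_
        exact Real.rpow_le_rpow ha0.le (hVa j) (by norm_num)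
      calc w * (1 / 4 : ℝ) ^ j *
            (d ^ (1 / 4 : ℝ) / ‖F (φ 0) + ((1 / 2 : ℝ) ^ j : ℝ)‖ ^ (9 / 4 : ℝ))
          ≤ w * (1 / 4 : ℝ) ^ j * (d ^ (1 / 4 : ℝ) / a ^ (9 / 4 : ℝ)) :=
            mul_le_mul_of_nonneg_left e2 (by positivity)
        _ = _ := by ring
    refine le_trans ?_ (hsum.le_tsum i fun j _ => hnn j)
    -- the estimate of one term
    obtain ⟨x, hx⟩ : ∃ x : ℝ, x = (1 / 2 : ℝ) ^ i := ⟨_, rfl⟩
    have hx0 : 0 < x := by rw [hx]; positivity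
    rw [← hx] at hi1 hi2
    rw [← hx]
    have hVu : ‖F (φ 0) + (x : ℂ)‖ ≤ 2 * a := by
      calc ‖F (φ 0) + (x : ℂ)‖ ≤ ‖F (φ 0)‖ + ‖(x : ℂ)‖ := norm_add_le _ _
        _ = a + x := by rw [← ha, Complex.norm_real, Real.norm_of_nonneg hx0.le]
        _ ≤ 2 * a := by linarith
    have hV0 : 0 < ‖F (φ 0) + (x : ℂ)‖ := by
      have := hVa i
      rw [← hx] at this
      linarith
    have hxa : a ≤ 2 * M * x := by
      rw [hab]
      nlinarith
    have hk1 : (2 * a) ^ (9 / 4 : ℝ) ≤ 8 * (a ^ (2 : ℕ) * a ^ (1 / 4 : ℝ)) := by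
      rw [Real.mul_rpow (by norm_num) ha0.le]
      have e1 : a ^ (9 / 4 : ℝ) = a ^ (2 : ℕ) * a ^ (1 / 4 : ℝ) := by
        rw [← Real.rpow_natCast, ← Real.rpow_add ha0]
        norm_num
      have e2 : (2 : ℝ) ^ (9 / 4 : ℝ) ≤ 8 := by
        calc (2 : ℝ) ^ (9 / 4 : ℝ) ≤ (2 : ℝ) ^ (3 : ℝ) :=
              Real.rpow_le_rpow_of_exponent_le (by norm_num) (by norm_num)
          _ = 8 := by
              rw [show (3 : ℝ) = ((3 : ℕ) : ℝ) by norm_num, Real.rpow_natCast]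
              norm_num
      rw [e1]
      exact mul_le_mul_of_nonneg_right e2 (by positivity)
    have hk2 : ‖F (φ 0) + (x : ℂ)‖ ^ (9 / 4 : ℝ) ≤ 32 * M ^ 2 * x ^ 2 * a ^ (1 / 4 : ℝ) := by
      calc ‖F (φ 0) + (x : ℂ)‖ ^ (9 / 4 : ℝ) ≤ (2 * a) ^ (9 / 4 : ℝ) :=
            Real.rpow_le_rpow hV0.le hVu (by norm_num)
        _ ≤ 8 * (a ^ (2 : ℕ) * a ^ (1 / 4 : ℝ)) := hk1
        _ ≤ 8 * ((2 * M * x) ^ (2 : ℕ) * a ^ (1 / 4 : ℝ)) := by gcongr
        _ = 32 * M ^ 2 * x ^ 2 * a ^ (1 / 4 : ℝ) := by ring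
    have hk3 : (d / a) ^ (1 / 4 : ℝ) = d ^ (1 / 4 : ℝ) / a ^ (1 / 4 : ℝ) :=
      Real.div_rpow hdd ha0.le _
    have ha4 : 0 < a ^ (1 / 4 : ℝ) := by positivity
    have hd4 : 0 ≤ d ^ (1 / 4 : ℝ) := by positivity
    have hVp : 0 < ‖F (φ 0) + (x : ℂ)‖ ^ (9 / 4 : ℝ) := by positivity
    rw [hk3, hw, mul_div_assoc', mul_div_assoc', div_le_div_iff₀ ha4 hVp]
    have hM3 : M ^ 2 ≤ M ^ 3 := by
      have : M ^ 3 = M ^ 2 * M := by ring
      rw [this]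
      nlinarith [sq_nonneg M]
    calc L' * d ^ (1 / 4 : ℝ) * ‖F (φ 0) + (x : ℂ)‖ ^ (9 / 4 : ℝ)
        ≤ L' * d ^ (1 / 4 : ℝ) * (32 * M ^ 2 * x ^ 2 * a ^ (1 / 4 : ℝ)) :=
          mul_le_mul_of_nonneg_left hk2 (by positivity)
      _ ≤ L' * d ^ (1 / 4 : ℝ) * (64 * M ^ 3 * x ^ 2 * a ^ (1 / 4 : ℝ)) := by
          refine mul_le_mul_of_nonneg_left ?_ (by positivity)
          gcongr
          · norm_num
      _ = L' * (64 * M ^ 3) * x ^ 2 * d ^ (1 / 4 : ℝ) * a ^ (1 / 4 : ℝ) := by ring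

end Pool.Agent.MPca0fc2.LD
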