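import Pool.Agent.Lib.MP_ca0fc2_an.Mg.G039

/-! Algebras of germs of tame functions; the generators are tame on small balls. -/

set_option autoImplicit false
set_option linter.unusedSectionVars false

open Metric Set MeasureTheory Filter Topology
open scoped InnerProductSpace ENNReal ContDiff

namespace Pool.Agent.MPca0fc2.LD5

open Pool.Agent.Lib.MP_ca0fc2_an
open Pool.Agent.MPca0fc2.LD (Near exists_min cells_solve family_uc)

variable {n : ℕ}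

/-- The cells of germs of tame functions contain the cells of tame functions. -/
theorem germ_cells {D : Set (EuclideanSpace ℂ (Fin n))} {p : EuclideanSpace ℂ (Fin n)}
    {𝓖 : ℝ → Set (EuclideanSpace ℂ (Fin n) → ℂ)}
    (h𝓖 : ∃ R > 0, ∀ r r' : ℝ, r' < r → r' ≤ R → 𝓖 r ⊆ TameOn D (ball p r')) {m : ℕ}
    {u : Fin m → EuclideanSpace ℂ (Fin n) → ℂ} (hu : ∀ i, u i ∈ Near D p 𝓖) {s : ℝ} (hs : 0 < s)
    {r₀ : ℝ} (hr₀ : 0 < r₀) :
    ∃ r > 0, r < r₀ ∧ ∃ (k : ℕ) (a : Fin k → EuclideanSpace ℂ (Fin n) → ℂ) (s' : ℝ), 0 < s' ∧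
      (∀ i, a i ∈ TameOn D (ball p r)) ∧ ∀ c' : Fin k → ℂ, ∃ c : Fin m → ℂ,
        cellOn (D ∩ ball p r) a c' s' ⊆ cellOn (D ∩ ball p r₀) u c s := by
  classical
  obtain ⟨R, hR, h𝓖⟩ := h𝓖
  choose ρ hρ v hv huv using fun i => hu i (s / 4) (by positivity)
  obtain ⟨r, hr, hr0', hrρ⟩ := exists_min hρ (lt_min hr₀ hR)
  have hr0 : r < r₀ := hr0'.trans_le (min_le_left _ _)
  have hrR : r ≤ R := hr0'.le.trans (min_le_right _ _)
  have hTb : ∀ g ∈ TameOn D (ball p r), ∃ M : ℝ, ∀ z ∈ D ∩ ball p r, ‖g z‖ ≤ M := by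
    rintro g (hg | hg)
    · exact hg.1.2
    · exact hg.1.2
  obtain ⟨k, a, s', hs', ha, h⟩ := family_uc hTb (v := v)
    (fun i => Algebra.adjoin_mono (h𝓖 (ρ i) r (hrρ i) hrR) (hv i)) (show 0 < s / 4 by positivity)
  refine ⟨r, hr, hr0, k, a, s' / 2, by positivity, ha, fun c' => ?_⟩
  by_cases hne : (cellOn (D ∩ ball p r) a c' (s' / 2)).Nonempty
  · obtain ⟨w, hw⟩ := hne
    refine ⟨fun i => u i w, fun z hz => ⟨⟨hz.1.1, ball_subset_ball hr0.le hz.1.2⟩, fun i => ?_⟩⟩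
    have h1 := h z hz.1 w hw.1 (fun j => by
      calc ‖a j z - a j w‖ = ‖(a j z - c' j) - (a j w - c' j)‖ := by congr 1; ring
        _ ≤ ‖a j z - c' j‖ + ‖a j w - c' j‖ := norm_sub_le _ _
        _ < s' := by linarith [hz.2 j, hw.2 j]) i
    have h2 := huv i z ⟨hz.1.1, ball_subset_ball (hrρ i).le hz.1.2⟩
    have h3 := huv i w ⟨hw.1.1, ball_subset_ball (hrρ i).le hw.1.2⟩
    calc ‖u i z - u i w‖ = ‖(u i z - v i z) + (v i z - v i w) + -(u i w - v i w)‖ := by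
          congr 1; ring
      _ ≤ ‖u i z - v i z‖ + ‖v i z - v i w‖ + ‖-(u i w - v i w)‖ := norm_add₃_le
      _ < s := by rw [norm_neg]; linarith
  · refine ⟨0, fun z hz => absurd ⟨z, hz⟩ hne⟩

/-- **Localization.** Arbitrary data are solvable if near each boundary point they are solvable on the
cells of germs of tame functions. -/
theorem local_solve (hn : 2 ≤ n) {D : Set (EuclideanSpace ℂ (Fin n))}
    (hD : IsStrictlyPscDomain D) {N : ℕ} {f : Fin N → EuclideanSpace ℂ (Fin n) → ℂ}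
    (hf : ∀ j, IsHinf D (f j)) {δ : ℝ} (hδ : 0 < δ) (hfδ : ∀ z ∈ D, δ ≤ ∑ j, ‖f j z‖ ^ 2)
    {𝓖 : EuclideanSpace ℂ (Fin n) → ℝ → Set (EuclideanSpace ℂ (Fin n) → ℂ)}
    (h𝓖 : ∀ p ∈ frontier D, ∃ R > 0, ∀ r r' : ℝ, r' < r → r' ≤ R → 𝓖 p r ⊆ TameOn D (ball p r'))
    (H : ∀ p ∈ frontier D, ∃ r > 0, ∃ (m : ℕ) (u : Fin m → EuclideanSpace ℂ (Fin n) → ℂ) (s : ℝ),
      0 < s ∧ (∀ i, u i ∈ Near D p (𝓖 p)) ∧ ∀ c : Fin m → ℂ,
        ∃ C, SolvableOn f (cellOn (D ∩ ball p r) u c s) C) :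
    ∃ C, SolvableOn f D C := by
  refine cells_solve hn hD hf hδ hfδ fun p hp => ?_
  obtain ⟨r₀, hr₀, m, u, s, hs, hu, hcell⟩ := H p hp
  obtain ⟨r, hr, -, k, a, s', hs', ha, h⟩ := germ_cells (h𝓖 p hp) hu hs hr₀
  refine ⟨r, hr, k, a, s', hs', ha, fun c' => Or.inl ?_⟩
  obtain ⟨c, hc⟩ := h c'
  obtain ⟨C, hC⟩ := hcell c
  exact ⟨C, Pool.Agent.MPca0fc2.CXS.solv_sub hC hc le_rfl⟩

/-- the functions of the algebra with all the functions of one map -/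
theorem map_solve (hn : 2 ≤ n) {D : Set (EuclideanSpace ℂ (Fin n))}
    (hD : IsStrictlyPscDomain D) {N : ℕ} {f : Fin N → EuclideanSpace ℂ (Fin n) → ℂ}
    (hf : ∀ j, IsHinf D (f j)) {δ : ℝ} (hδ : 0 < δ) (hfδ : ∀ z ∈ D, δ ≤ ∑ j, ‖f j z‖ ^ 2)
    {𝓖 : EuclideanSpace ℂ (Fin n) → ℝ → Set (EuclideanSpace ℂ (Fin n) → ℂ)}
    (h𝓖 : ∀ p ∈ frontier D, ∃ R > 0, ∀ r r' : ℝ, r' < r → r' ≤ R → 𝓖 p r ⊆ TameOn D (ball p r'))
    (H : ∀ p ∈ frontier D, ∃ r > 0, ∃ (π : EuclideanSpace ℂ (Fin n) → ℂ) (J : Finset (Fin N)) (δ' : ℝ),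
      DifferentiableOn ℂ π (D ∩ ball p r) ∧ (∀ z ∈ D ∩ ball p r, ‖π z‖ < 1) ∧
      (∀ j ∈ J, f j ∈ Near D p fun r => 𝓖 p r ∪ HinfOf π) ∧ 0 < δ' ∧
      ∀ z ∈ D ∩ ball p r, δ' ≤ ∑ j ∈ J, ‖f j z‖ ^ 2) :
    ∃ C, SolvableOn f D C := by
  classical
  refine cells_solve hn hD hf hδ hfδ fun p hp => ?_
  obtain ⟨r₀, hr₀, π, J, δ', hπ, hπ1, hfp, hδ', hfδ'⟩ := H p hp
  obtain ⟨η, hη0, hη⟩ : ∃ η > 0, 4 * N * η ^ 2 < δ' := by
    refine ⟨√(δ' / (4 * (N + 1))), Real.sqrt_pos.2 (by positivity), ?_⟩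
    rw [Real.sq_sqrt (by positivity)]
    have h1 : (4 : ℝ) * N * (δ' / (4 * (N + 1))) = N / (N + 1) * δ' := by field_simp
    rw [h1]
    have h2 : (N : ℝ) / (N + 1) < 1 := by
      rw [div_lt_one (by positivity)]
      linarith
    nlinarith
  have hch : ∀ j, ∃ (ρ : ℝ) (v : EuclideanSpace ℂ (Fin n) → ℂ), 0 < ρ ∧ (j ∈ J →
      v ∈ Algebra.adjoin ℂ (𝓖 p ρ ∪ HinfOf π) ∧ ∀ z ∈ D ∩ ball p ρ, ‖f j z - v z‖ ≤ η) := by
    intro j
    by_cases hj : j ∈ J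
    · obtain ⟨ρ, hρ, v, h1, h2⟩ := hfp j hj η hη0
      exact ⟨ρ, v, hρ, fun _ => ⟨h1, h2⟩⟩
    · exact ⟨1, 0, one_pos, fun h => absurd h hj⟩
  choose ρ v hρ hv using hch
  obtain ⟨R, hR, h𝓖⟩ := h𝓖 p hp
  obtain ⟨r, hr, hr0', hrρ⟩ := exists_min hρ (lt_min hr₀ hR)
  have hr0 : r < r₀ := hr0'.trans_le (min_le_left _ _)
  have hrR : r ≤ R := hr0'.le.trans (min_le_right _ _)
  have hsub : D ∩ ball p r ⊆ D ∩ ball p r₀ := fun z hz => ⟨hz.1, ball_subset_ball hr0.le hz.2⟩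
  refine ⟨r, hr, 0, fun i => i.elim0, 1, one_pos, fun i => i.elim0, fun c => Or.inr ?_⟩
  have hcell : cellOn (D ∩ ball p r) (fun i : Fin 0 => (i.elim0 : EuclideanSpace ℂ (Fin n) → ℂ))
      c 1 ⊆ D ∩ ball p r := fun z hz => hz.1
  have hTd : ∀ g ∈ TameOn D (ball p r), DifferentiableOn ℂ g (D ∩ ball p r) := by
    rintro g (hg | hg)
    · exact hg.1.1
    · exact hg.1.1
  refine ⟨J, δ', η, v, π, hη, hη0.le, hπ.mono (hcell.trans hsub),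
    fun z hz => hπ1 z (hsub (hcell hz)), fun j hj => ?_, fun z hz => hfδ' z (hsub (hcell hz)),
    fun j hj z hz => (hv j hj).2 z ⟨(hcell hz).1, ball_subset_ball (hrρ j).le (hcell hz).2⟩⟩
  have h1 : v j ∈ Algebra.adjoin ℂ (TameOn D (ball p r) ∪ HinfOf π) :=
    Algebra.adjoin_mono (union_subset_union_left _ (h𝓖 (ρ j) r (hrρ j) hrR)) (hv j hj).1
  refine ⟨?_, fun ε hε => ⟨v j, h1, fun z _ => by rw [sub_self, norm_zero]; exact hε.le⟩⟩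
  refine DifferentiableOn.mono ?_ hcell
  generalize v j = w at h1
  induction h1 using Algebra.adjoin_induction with
  | mem x hx =>
    rcases hx with hx | ⟨g, hg, -, hx⟩
    · exact hTd x hx
    · have h2 : DifferentiableOn ℂ (g ∘ π) (D ∩ ball p r) :=
        hg.comp (hπ.mono hsub) fun z hz => mem_ball_zero_iff.2 (hπ1 z (hsub hz))
      exact h2.congr fun z _ => hx z
  | algebraMap c => exact differentiableOn_const c
  | add x y _ _ hx hy => exact hx.add hy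
  | mul x y _ _ hx hy => exact hx.mul hy

/-- near each boundary point one function is arbitrary -/
theorem one_solve (hn : 2 ≤ n) {D : Set (EuclideanSpace ℂ (Fin n))}
    (hD : IsStrictlyPscDomain D) {N : ℕ} {f : Fin N → EuclideanSpace ℂ (Fin n) → ℂ}
    (hf : ∀ j, IsHinf D (f j)) {δ : ℝ} (hδ : 0 < δ) (hfδ : ∀ z ∈ D, δ ≤ ∑ j, ‖f j z‖ ^ 2)
    {𝓖 : EuclideanSpace ℂ (Fin n) → ℝ → Set (EuclideanSpace ℂ (Fin n) → ℂ)}
    (h𝓖 : ∀ p ∈ frontier D, ∃ R > 0, ∀ r r' : ℝ, r' < r → r' ≤ R → 𝓖 p r ⊆ TameOn D (ball p r'))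
    (H : ∀ p ∈ frontier D, ∃ i, ∀ j, j ≠ i → f j ∈ Near D p (𝓖 p)) :
    ∃ C, SolvableOn f D C := by
  refine map_solve hn hD hf hδ hfδ h𝓖 fun p hp => ?_
  obtain ⟨i, hi⟩ := H p hp
  obtain ⟨M, hM⟩ := (hf i).2
  obtain ⟨c, hc⟩ : ∃ c : ℝ, c = |M| + 1 := ⟨_, rfl⟩
  have hc0 : 0 < c := by rw [hc]; positivity
  have hcc : (c : ℂ) ≠ 0 := by exact_mod_cast hc0.ne'
  refine ⟨1, one_pos, fun z => (c : ℂ)⁻¹ * f i z, Finset.univ, δ,
    ((hf i).1.mono inter_subset_left).const_mul _, fun z hz => ?_, fun j _ ε hε => ?_, hδ,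
    fun z hz => hfδ z hz.1⟩
  · rw [norm_mul, norm_inv, Complex.norm_real, Real.norm_of_nonneg hc0.le, inv_mul_lt_iff₀ hc0,
      mul_one, hc]
    linarith [hM z hz.1, le_abs_self M]
  · by_cases hj : j = i
    · have hmem : f i ∈ HinfOf fun z => (c : ℂ)⁻¹ * f i z := by
        refine ⟨fun x => (c : ℂ) * x, (differentiable_id.const_mul _).differentiableOn,
          ⟨c, fun x hx => ?_⟩, fun z => ?_⟩
        · rw [norm_mul, Complex.norm_real, Real.norm_of_nonneg hc0.le]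
          exact mul_le_of_le_one_right hc0.le (mem_ball_zero_iff.1 hx).le
        · show f i z = (c : ℂ) * ((c : ℂ)⁻¹ * f i z)
          field_simp
      refine ⟨1, one_pos, f i, Algebra.subset_adjoin (Or.inr hmem), fun z _ => ?_⟩
      rw [hj, sub_self, norm_zero]
      exact hε.le
    · obtain ⟨r, hr, v, hv, hv1⟩ := hi j hj ε hε
      exact ⟨r, hr, v, Algebra.adjoin_mono subset_union_left hv, hv1⟩

end Pool.Agent.MPca0fc2.LD5
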