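import Pool.Agent.Lib.MP_ca0fc2_an.Mg.G002

/-! Data with a polynomial without constant term which is bounded below. -/

set_option autoImplicit false

open Metric Set Filter Topology
open Pool.Agent.Lib.MP_ca0fc2_an

namespace Pool.Agent.MPca0fc2.LP

variable {n N : ℕ}

/-- polynomials in bounded holomorphic functions -/
theorem poly_hinf {C : Set (EuclideanSpace ℂ (Fin n))} {f : Fin N → EuclideanSpace ℂ (Fin n) → ℂ}
    (hf : ∀ j, IsHinf C (f j)) (P : MvPolynomial (Fin N) ℂ) :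
    IsHinf C fun z => MvPolynomial.eval (fun j => f j z) P := by
  induction P using MvPolynomial.induction_on with
  | C a =>
    simp only [MvPolynomial.eval_C]
    exact ⟨differentiableOn_const a, ‖a‖, fun _ _ => le_rfl⟩
  | add p q hp hq =>
    obtain ⟨h1, M, hM⟩ := hp
    obtain ⟨h2, K, hK⟩ := hq
    simp only [map_add]
    exact ⟨h1.add h2, M + K, fun z hz => (norm_add_le _ _).trans (add_le_add (hM z hz) (hK z hz))⟩
  | mul_X p i hp =>
    obtain ⟨h1, M, hM⟩ := hp
    obtain ⟨h2, K, hK⟩ := hf i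
    simp only [map_mul, MvPolynomial.eval_X]
    refine ⟨h1.mul h2, M * K, fun z hz => ?_⟩
    rw [norm_mul]
    exact mul_le_mul (hM z hz) (hK z hz) (norm_nonneg _) ((norm_nonneg _).trans (hM z hz))

theorem exists_coord_split (P : MvPolynomial (Fin N) ℂ) :
    ∃ A : Fin N → MvPolynomial (Fin N) ℂ, ∀ x : Fin N → ℂ,
      MvPolynomial.eval x P = MvPolynomial.eval 0 P + ∑ j, x j * MvPolynomial.eval x (A j) := by
  induction P using MvPolynomial.induction_on with
  | C a => exact ⟨fun _ => 0, fun x => by simp⟩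
  | add p q hp hq =>
    obtain ⟨A, hA⟩ := hp
    obtain ⟨B, hB⟩ := hq
    refine ⟨fun j => A j + B j, fun x => ?_⟩
    simp only [map_add, mul_add, Finset.sum_add_distrib]
    rw [hA x, hB x]
    ring
  | mul_X p i hp =>
    refine ⟨fun j => if j = i then p else 0, fun x => ?_⟩
    have h : ∑ j, x j * MvPolynomial.eval x (if j = i then p else 0) =
        x i * MvPolynomial.eval x p := by
      rw [Finset.sum_eq_single i]
      · simp
      · intro j _ hj
        simp [hj]
      · simp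
    rw [h]
    simp [mul_comm]

/-- Solutions from a polynomial without constant term which is bounded below: `P = ∑ X_j A_j`,
`h_j = A_j (f) / P (f)`. -/
theorem solve_below {C : Set (EuclideanSpace ℂ (Fin n))} {f : Fin N → EuclideanSpace ℂ (Fin n) → ℂ}
    (hf : ∀ j, IsHinf C (f j)) {P : MvPolynomial (Fin N) ℂ} (hP : MvPolynomial.eval 0 P = 0)
    {ε : ℝ} (hε : 0 < ε) (hPε : ∀ z ∈ C, ε ≤ ‖MvPolynomial.eval (fun j => f j z) P‖) :
    ∃ h : Fin N → EuclideanSpace ℂ (Fin n) → ℂ, (∀ j, IsHinf C (h j)) ∧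
      ∀ z ∈ C, ∑ j, f j z * h j z = 1 := by
  obtain ⟨A, hA⟩ := exists_coord_split P
  have hne : ∀ z ∈ C, MvPolynomial.eval (fun j => f j z) P ≠ 0 := fun z hz h0 => by
    have h1 := hPε z hz
    rw [h0, norm_zero] at h1
    linarith
  refine ⟨fun j z => (MvPolynomial.eval (fun j => f j z) P)⁻¹ *
    MvPolynomial.eval (fun j => f j z) (A j), fun j => ?_, fun z hz => ?_⟩
  · obtain ⟨h1, -⟩ := poly_hinf hf P
    obtain ⟨h2, K, hK⟩ := poly_hinf hf (A j)
    refine ⟨(h1.inv hne).mul h2, ε⁻¹ * K, fun z hz => ?_⟩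
    rw [norm_mul, norm_inv]
    exact mul_le_mul (inv_anti₀ hε (hPε z hz)) (hK z hz) (norm_nonneg _) (inv_pos.mpr hε).le
  · have h1 := hA fun j => f j z
    rw [hP, zero_add] at h1
    calc ∑ j, f j z * ((MvPolynomial.eval (fun j => f j z) P)⁻¹ *
          MvPolynomial.eval (fun j => f j z) (A j))
        = (MvPolynomial.eval (fun j => f j z) P)⁻¹ *
            ∑ j, f j z * MvPolynomial.eval (fun j => f j z) (A j) := by
          rw [Finset.mul_sum]
          exact Finset.sum_congr rfl fun j _ => by ring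
      _ = 1 := by
          rw [← h1]
          exact inv_mul_cancel₀ (hne z hz)

/-- polynomials whose only common zero is the origin -/
theorem poly_lower {m : ℕ} {P : Fin m → MvPolynomial (Fin N) ℂ}
    (hP : ∀ x : Fin N → ℂ, (∀ i, MvPolynomial.eval x (P i) = 0) → x = 0) {δ : ℝ} (hδ : 0 < δ)
    (M : ℝ) : ∃ κ > 0, ∀ x : Fin N → ℂ, δ ≤ ∑ j, ‖x j‖ ^ 2 → ‖x‖ ≤ M →
      κ ≤ ∑ i, ‖MvPolynomial.eval x (P i)‖ ^ 2 := by
  obtain ⟨K, hK⟩ : ∃ K, K = closedBall (0 : Fin N → ℂ) M ∩ {x | δ ≤ ∑ j, ‖x j‖ ^ 2} := ⟨_, rfl⟩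
  have h1 : Continuous fun x : Fin N → ℂ => ∑ j, ‖x j‖ ^ 2 := by fun_prop
  have hKc : IsCompact K := by
    rw [hK]
    exact (isCompact_closedBall _ _).inter_right (isClosed_le continuous_const h1)
  have h2 : Continuous fun x : Fin N → ℂ => ∑ i, ‖MvPolynomial.eval x (P i)‖ ^ 2 := by
    refine continuous_finsetSum _ fun i _ => ?_
    exact ((MvPolynomial.continuous_eval (P i)).norm).pow 2
  have hpos : ∀ x ∈ K, 0 < ∑ i, ‖MvPolynomial.eval x (P i)‖ ^ 2 := by
    intro x hx
    rw [hK] at hx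
    refine lt_of_le_of_ne (Finset.sum_nonneg fun i _ => sq_nonneg _) fun h0 => ?_
    have h3 := (Finset.sum_eq_zero_iff_of_nonneg fun i _ => sq_nonneg _).1 h0.symm
    have h4 : x = 0 := hP x fun i => by
      have := h3 i (Finset.mem_univ i)
      exact norm_eq_zero.1 (pow_eq_zero_iff (two_ne_zero) |>.1 this)
    have h5 : δ ≤ ∑ j, ‖x j‖ ^ 2 := hx.2
    rw [h4] at h5
    simp at h5
    linarith
  rcases K.eq_empty_or_nonempty with he | hne
  · refine ⟨1, one_pos, fun x hx1 hx2 => ?_⟩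
    have : x ∈ K := by
      rw [hK]
      exact ⟨mem_closedBall_zero_iff.2 hx2, hx1⟩
    rw [he] at this
    exact absurd this (notMem_empty x)
  · obtain ⟨y, hy, hmin⟩ := hKc.exists_isMinOn hne h2.continuousOn
    refine ⟨_, hpos y hy, fun x hx1 hx2 => hmin ?_⟩
    rw [hK]
    exact ⟨mem_closedBall_zero_iff.2 hx2, hx1⟩

end Pool.Agent.MPca0fc2.LP
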