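import Pool.Agent.Lib.MP_ca0fc2_an.LD.P2

/-! Cells of polynomials in the data. -/

set_option autoImplicit false

open Metric Set Filter Topology
open Pool.Agent.Lib.MP_ca0fc2_an

namespace Pool.Agent.MPca0fc2.LP

variable {n N : ℕ}

/-- The data have solutions on the cells of all the polynomials `P i` in the data, except for one of
them, if the only common zero of the polynomials is the origin. -/
theorem poly_cells {D : Set (EuclideanSpace ℂ (Fin n))}
    {f : Fin N → EuclideanSpace ℂ (Fin n) → ℂ} (hf : ∀ j, IsHinf D (f j)) {δ : ℝ} (hδ : 0 < δ)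
    (hfδ : ∀ z ∈ D, δ ≤ ∑ j, ‖f j z‖ ^ 2) {m : ℕ} {P : Fin m → MvPolynomial (Fin N) ℂ}
    {k : Fin m} (hP : ∀ x : Fin N → ℂ, (∀ i, MvPolynomial.eval x (P i) = 0) ↔ x = 0) :
    ∃ ε > 0, ∀ (c : Fin m → ℂ) (C : Set (EuclideanSpace ℂ (Fin n))), C ⊆ D →
      (∀ z ∈ C, ∀ i, i ≠ k → ‖MvPolynomial.eval (fun j => f j z) (P i) - c i‖ < ε) →
      ∃ h : Fin N → EuclideanSpace ℂ (Fin n) → ℂ, (∀ j, IsHinf C (h j)) ∧
        ∀ z ∈ C, ∑ j, f j z * h j z = 1 := by
  classical
  choose M hM using fun j => (hf j).2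
  have hP0 : ∀ i, MvPolynomial.eval 0 (P i) = 0 := (hP 0).2 rfl
  obtain ⟨κ, hκ, hlow⟩ := poly_lower (fun x => (hP x).1) hδ (∑ j, |M j|)
  obtain ⟨ε, hε, hεκ⟩ : ∃ ε > 0, 2 * (m * ε ^ 2) ≤ κ := by
    refine ⟨√(κ / (2 * (m + 1))), Real.sqrt_pos.2 (by positivity), ?_⟩
    rw [Real.sq_sqrt (by positivity)]
    have h1 : 2 * ((m : ℝ) * (κ / (2 * (m + 1)))) = m / (m + 1) * κ := by field_simp
    rw [h1]
    have h2 : (m : ℝ) / (m + 1) ≤ 1 := by
      rw [div_le_one (by positivity)]
      linarith
    nlinarith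
  refine ⟨ε / 3, by positivity, fun c C hCD hCc => ?_⟩
  have hfC : ∀ j, IsHinf C (f j) := fun j => ⟨(hf j).1.mono hCD, M j, fun z hz => hM j z (hCD hz)⟩
  by_cases hc : ∃ i, i ≠ k ∧ 2 * ε / 3 ≤ ‖c i‖
  · obtain ⟨i, hik, hi⟩ := hc
    refine solve_below hfC (hP0 i) (show 0 < ε / 3 by positivity) fun z hz => ?_
    have h1 := hCc z hz i hik
    have h2 : ‖c i‖ ≤ ‖MvPolynomial.eval (fun j => f j z) (P i)‖ +
        ‖MvPolynomial.eval (fun j => f j z) (P i) - c i‖ := by
      calc ‖c i‖ = ‖MvPolynomial.eval (fun j => f j z) (P i) -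
            (MvPolynomial.eval (fun j => f j z) (P i) - c i)‖ := by congr 1; ring
        _ ≤ _ := norm_sub_le _ _
    linarith
  · push Not at hc
    refine solve_below hfC (hP0 k) (Real.sqrt_pos.2 (half_pos hκ)) fun z hz => ?_
    have h0 := hlow (fun j => f j z) (hfδ z (hCD hz)) (by
      refine (pi_norm_le_iff_of_nonneg (Finset.sum_nonneg fun j _ => abs_nonneg _)).2 fun j => ?_
      exact (hM j z (hCD hz)).trans ((le_abs_self _).trans
        (Finset.single_le_sum (f := fun j => |M j|) (fun _ _ => abs_nonneg _)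
          (Finset.mem_univ j))))
    have h1 : ∀ i, i ≠ k → ‖MvPolynomial.eval (fun j => f j z) (P i)‖ ^ 2 ≤ ε ^ 2 := by
      intro i hi
      have h1 := hCc z hz i hi
      have h2 := hc i hi
      refine pow_le_pow_left₀ (norm_nonneg _) ?_ 2
      calc ‖MvPolynomial.eval (fun j => f j z) (P i)‖
          = ‖(MvPolynomial.eval (fun j => f j z) (P i) - c i) + c i‖ := by congr 1; ring
        _ ≤ ‖MvPolynomial.eval (fun j => f j z) (P i) - c i‖ + ‖c i‖ := norm_add_le _ _
        _ ≤ ε := by linarith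
    have h2 : ∑ i ∈ Finset.univ.erase k, ‖MvPolynomial.eval (fun j => f j z) (P i)‖ ^ 2 ≤
        m * ε ^ 2 := by
      refine (Finset.sum_le_sum fun i hi => h1 i (Finset.ne_of_mem_erase hi)).trans ?_
      rw [Finset.sum_const, nsmul_eq_mul]
      refine mul_le_mul_of_nonneg_right ?_ (sq_nonneg _)
      have h3 := Finset.card_le_univ (Finset.univ.erase k)
      rw [Fintype.card_fin] at h3
      exact_mod_cast h3
    rw [← Finset.add_sum_erase _ _ (Finset.mem_univ k)] at h0
    rw [← Real.sqrt_sq (norm_nonneg (MvPolynomial.eval (fun j => f j z) (P k)))]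
    exact Real.sqrt_le_sqrt (by linarith)

/-- Functions such that for all `j ≠ k` one of `f_j`, `f_k`, `f_j f_k` is in `T`: all but one of some
polynomials in them are in `T`, and the only common zero of the polynomials is the origin. -/
theorem pair_polys {T : Set (EuclideanSpace ℂ (Fin n) → ℂ)} (h0 : (fun _ => 0) ∈ T)
    {f : Fin N → EuclideanSpace ℂ (Fin n) → ℂ}
    (H : ∀ j k, j ≠ k → f j ∈ T ∨ f k ∈ T ∨ (fun z => f j z * f k z) ∈ T) :
    ∃ (m : ℕ) (P : Fin m → MvPolynomial (Fin N) ℂ) (k : Fin m),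
      (∀ x : Fin N → ℂ, (∀ i, MvPolynomial.eval x (P i) = 0) ↔ x = 0) ∧
      ∀ i, i ≠ k → (fun z => MvPolynomial.eval (fun j => f j z) (P i)) ∈ T := by
  classical
  obtain ⟨e⟩ : Nonempty (Fin (Fintype.card (Option (Fin N × Fin N))) ≃
    Option (Fin N × Fin N)) := ⟨(Fintype.equivFin _).symm⟩
  obtain ⟨Q, hQ⟩ : ∃ Q : Option (Fin N × Fin N) → MvPolynomial (Fin N) ℂ, Q = fun x =>
      match x with
      | none => ∑ j, if f j ∈ T then 0 else MvPolynomial.X j
      | some (j, k) => if f j ∈ T then MvPolynomial.X j else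
          if f k ∈ T ∨ j = k then 0 else MvPolynomial.X j * MvPolynomial.X k := ⟨_, rfl⟩
  refine ⟨_, fun i => Q (e i), e.symm none, fun x => ⟨fun hx => ?_, fun hx i => ?_⟩,
    fun i hi => ?_⟩
  · have hx' : ∀ y, MvPolynomial.eval x (Q y) = 0 := by
      intro y
      have h1 := hx (e.symm y)
      beta_reduce at h1
      rwa [e.apply_symm_apply] at h1
    have h1 : ∀ j, f j ∈ T → x j = 0 := by
      intro j hj
      have h2 := hx' (some (j, j))
      rw [hQ] at h2
      simpa only [hj, if_true, MvPolynomial.eval_X] using h2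
    have h2 : ∀ j k, f j ∉ T → f k ∉ T → j ≠ k → x j = 0 ∨ x k = 0 := by
      intro j k hj hk hjk
      have h2 := hx' (some (j, k))
      rw [hQ] at h2
      simp only [hj, if_false, hk, hjk, or_self, map_mul, MvPolynomial.eval_X] at h2
      exact mul_eq_zero.1 h2
    funext j
    show x j = 0
    by_contra hj
    have hjT : f j ∉ T := fun h => hj (h1 j h)
    have h3 : ∀ k, k ≠ j → x k = 0 := by
      intro k hk
      by_cases hkT : f k ∈ T
      · exact h1 k hkT
      · exact (h2 k j hkT hjT hk).resolve_right hj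
    have h4 := hx' none
    rw [hQ] at h4
    simp only [map_sum] at h4
    rw [Finset.sum_eq_single j (fun k _ hk => ?_) fun h => absurd (Finset.mem_univ j) h] at h4
    · rw [if_neg hjT, MvPolynomial.eval_X] at h4
      exact hj h4
    · split_ifs
      · rw [map_zero]
      · rw [MvPolynomial.eval_X]
        exact h3 k hk
  · rw [hx]
    beta_reduce
    generalize e i = y
    rw [hQ]
    rcases y with _ | ⟨j, k⟩
    · simp only [map_sum]
      refine Finset.sum_eq_zero fun j _ => ?_
      split_ifs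
      · rw [map_zero]
      · rw [MvPolynomial.eval_X]
        rfl
    · dsimp only
      split_ifs
      · rw [MvPolynomial.eval_X]
        rfl
      · rw [map_zero]
      · rw [map_mul, MvPolynomial.eval_X, Pi.zero_apply, zero_mul]
  · have h1 : e i ≠ none := fun h => hi (by rw [← h, e.symm_apply_apply])
    beta_reduce
    generalize e i = y at h1
    rcases y with _ | ⟨j, k⟩
    · exact absurd rfl h1
    · rw [hQ]
      dsimp only
      split_ifs with h2 h3
      · simpa only [MvPolynomial.eval_X] using h2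
      · simpa only [map_zero] using h0
      · simp only [map_mul, MvPolynomial.eval_X]
        rw [not_or] at h3
        rcases H j k h3.2 with h | h | h
        · exact absurd h h2
        · exact absurd h h3.1
        · exact h

end Pool.Agent.MPca0fc2.LP
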